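import Pool.Agent.H175.Main

/-!
# Unbounded numbers of indecomposables force at least `n - 1` of each length

Definitions (file `Pool/Agent/H175/Defs.lean`), following the problem file:

* a permutation of length `n` is an element of `Equiv.Perm (Fin n)`;
* `Contains τ σ`: a subsequence of `τ` is order isomorphic to `σ`;
* `PermClass`: a set of permutations (`mem n` = members of length `n`) closed under containment;
* `dsum α β`: the direct sum;
* `Indec τ`: `τ` is not the direct sum of two nonempty permutations;
* `C.ind n`: the indecomposable members of length `n`.

The theorem below answers Q1 positively, and shows that the hypothesis that the class is sum closed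
is not needed.

Outline of the proof.  Suppose `|ind(C)_n| ≤ n - 2`.  Then among any `n - 1` connected `n`-element
subsets of the inversion graph of a member of `C` two carry the same pattern.  Explicit families of
`n - 1` pairwise different patterns show that the middle part of a maximal clique, or of a maximal
chain in a quadrant, is an interval; if such an interval is long, all but boundedly many points lie
in it.  Otherwise degrees are bounded and the permutation is an increasing oscillation up to
boundedly many points at its two ends.  In each case the permutation is described by bounded data.
-/

namespace Pool.Agent.Results.MP_2d4b98_co.IndecLowerBound

open Pool.Agent.H175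

/-- If the numbers of indecomposables of a permutation class are unbounded, then the class has at
least `n - 1` indecomposables of every length `n ≥ 1`. -/
theorem result (C : PermClass) (hunb : ¬ BddAbove (Set.range fun n : ℕ => (C.ind n).ncard)) :
    ∀ n : ℕ, 1 ≤ n → n - 1 ≤ (C.ind n).ncard := by
  intro n _
  refine main_ind C (fun B => ?_) n
  by_contra hcon
  push Not at hcon
  exact hunb ⟨B, by rintro _ ⟨m, rfl⟩; exact hcon m⟩

end Pool.Agent.Results.MP_2d4b98_co.IndecLowerBound
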